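import Mathlib
import Pool.Agent.Lib_MP_644907_ins.Main

/-!
# MP_644907_pr, Q1: dimension drop for every finitely supported Fuchsian random walk
-/

set_option autoImplicit false

open MeasureTheory Metric Filter Topology Pool.Agent.MP644907ins

namespace Pool.Agent.Results.MP_644907_pr.DimensionDrop

/-- Let `Γ` be a discrete group of isometries of the hyperbolic plane (disc model, the maps extended
to the closed disc) with more than two limit points, `μ` a finitely supported probability on
isometries whose support generates `Γ` as a semigroup, and `ν` a `μ`-stationary probability measure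
on the boundary circle. Then some Borel set `E` of full `ν`-measure has Hausdorff dimension smaller
than that of the limit set; moreover the lower local dimension of `ν` is at most `dimH E` almost
everywhere, and if the local dimension exists and equals `D` almost everywhere, then
`D ≤ dimH E`, so `D` is smaller than the dimension of the limit set. -/
theorem result (Γ : Subgroup (Disc ≃ₜ Disc)) (hΓ : ∀ γ ∈ Γ, IsHypIsometry γ)
    (hdisc : IsDiscrete Γ) (hne : 2 < (limitSet Γ).encard)
    (μ : PMF (Disc ≃ₜ Disc)) (hfin : μ.support.Finite)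
    (hgen : (Subsemigroup.closure μ.support : Set (Disc ≃ₜ Disc)) = Γ)
    (ν : Measure Disc) [IsProbabilityMeasure ν] (hcirc : ν {ξ | ‖(ξ : ℂ)‖ = 1} = 1)
    (hstat : ∀ A, MeasurableSet A → ν A = ∑' γ, μ γ * ν (γ ⁻¹' A)) :
    ∃ E : Set Disc, MeasurableSet E ∧ ν Eᶜ = 0 ∧ dimH E < dimH (limitSet Γ) ∧
      (∀ s : ℝ, dimH E < ENNReal.ofReal s →
        ∀ᵐ ξ ∂ν, ∃ᶠ r in 𝓝[>] (0 : ℝ), r ^ s < ν.real (ball ξ r)) ∧
      ∀ D : ℝ, (∀ᵐ ξ ∂ν, Tendsto (fun r : ℝ => Real.log (ν.real (ball ξ r)) / Real.log r)
        (𝓝[>] 0) (𝓝 D)) → ENNReal.ofReal D ≤ dimH E := by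
  obtain ⟨E, h1, h2, h3⟩ := drop hΓ hdisc hne μ hfin hgen ν hcirc hstat
  exact ⟨E, h1, h2, h3, fun s hs => lower_dim h1 h2 hs, fun D hD => exact_dim h1 h2 hD⟩

end Pool.Agent.Results.MP_644907_pr.DimensionDrop
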